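import Pool.Agent.Work.MP_5532fa_x.Opt8

/-!
# MP_5532fa_co : the extremal graphs for all `r ≥ 3` and all large `m`
-/

namespace Pool.Agent.Results.MP_5532fa_co.ExtremalGraphs

open Classical in
/-- The spectral radius of a finite graph: the largest real eigenvalue of the adjacency matrix. -/
noncomputable def spectralRadius {V : Type*} [Fintype V] (G : SimpleGraph V) : ℝ :=
  sSup (spectrum ℝ (G.adjMatrix ℝ))

/-- `G` has `m` edges, no clique on `r + 1` vertices and is not `r`-colourable. -/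
def InClass {V : Type} (r m : ℕ) (G : SimpleGraph V) : Prop :=
  G.CliqueFree (r + 1) ∧ ¬ G.Colorable r ∧ G.edgeSet.ncard = m

/-- `G` has the largest spectral radius among all finite graphs in `InClass r m`. -/
def IsExtremal {V : Type} [Fintype V] (r m : ℕ) (G : SimpleGraph V) : Prop :=
  InClass r m G ∧ ∀ (V' : Type) [Fintype V'] (G' : SimpleGraph V'), InClass r m G' →
    spectralRadius G' ≤ spectralRadius G

/-- `G` is isomorphic to `D` together with some isolated vertices. -/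
def IsUpToIsolated {V W : Type*} (G : SimpleGraph V) (D : SimpleGraph W) : Prop :=
  ∃ f : D ↪g G, ∀ v, v ∉ Set.range f → ∀ w, ¬ G.Adj v w

/-- The number of edges of the Turan graph `T_r(N)`. -/
noncomputable def t (r N : ℕ) : ℕ := (SimpleGraph.turanGraph N r).edgeSet.ncard

/-- `X = j / ((1 - 1/r) N)`; for `t_r(N) + j < t_r(N+1)` it lies between `0` and `1`. -/
noncomputable def ratio (r N j : ℕ) : ℝ := (j : ℝ) / ((1 - 1 / (r : ℝ)) * N)

/-- The vertices of `S` in the class `i`. -/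
def part {V : Type} {r : ℕ} (S : Finset V) (c : V → Fin r) (i : Fin r) : Finset V :=
  S.filter (fun v => c v = i)

/-- Outside the classes in `P`, the vertices of `A` are distributed in this way: classes of `H` of
equal size contain equal numbers of vertices of `A` up to one, and a larger class contains more than
one vertex of `A` only if all smaller classes are contained in `A`. -/
def SmallFirst {V : Type} {r : ℕ} (H A : Finset V) (c : V → Fin r) (P : Finset (Fin r)) : Prop :=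
  ∀ i k, i ∉ P → k ∉ P →
    ((part H c i).card = (part H c k).card → (part A c i).card ≤ (part A c k).card + 1) ∧
    ((part H c i).card < (part H c k).card →
      (part A c i).card = (part H c i).card ∨ (part A c k).card = 1)

/-- Form D over the class sizes `y`: the complete multipartite graph on `H` (classes given by `c`,
of sizes `y`) without an edge `v₁ v₂` between two largest classes, and a vertex `w` joined exactly
to a subset `A` of `H` meeting all classes, `v₁` and `v₂` being the only vertices of `A` in their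
classes, and the rest of `A` placed in the smaller classes first; the other vertices are isolated.
(The number of vertices of `A` is given by the number of edges.) -/
def FormD {V : Type} {r : ℕ} (y : Fin r → ℕ) (G : SimpleGraph V) : Prop :=
  ∃ (H : Finset V) (c : V → Fin r) (w : V) (A : Finset V) (v₁ v₂ : V),
    (∀ i, (part H c i).card = y i) ∧ w ∉ H ∧ A ⊆ H ∧ (∀ i, (part A c i).Nonempty) ∧
    c v₁ ≠ c v₂ ∧ part A c (c v₁) = {v₁} ∧ part A c (c v₂) = {v₂} ∧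
    (∀ k, k ≠ c v₁ → k ≠ c v₂ → y k ≤ y (c v₁) ∧ y k ≤ y (c v₂)) ∧
    SmallFirst H A c {c v₁, c v₂} ∧
    ∀ a b, G.Adj a b ↔
      (a ∈ H ∧ b ∈ H ∧ c a ≠ c b ∧ ¬ (a = v₁ ∧ b = v₂) ∧ ¬ (a = v₂ ∧ b = v₁)) ∨
        (a = w ∧ b ∈ A) ∨ (b = w ∧ a ∈ A)

/-- Form E over the class sizes `y`: the complete multipartite graph on `H` and two adjacent new
vertices `w`, `u`; `w` is joined to `A`, `u` to `B`; the other vertices are isolated. The class `i₀`
(a largest one) contains no vertex of `A` or `B`, each other class contains exactly one vertex of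
`B` and at least one vertex of `A`, exactly one vertex of `B` is not in `A`, and `A` is placed in
the smaller classes first. -/
def FormE {V : Type} {r : ℕ} (y : Fin r → ℕ) (G : SimpleGraph V) : Prop :=
  ∃ (H : Finset V) (c : V → Fin r) (w u : V) (A B : Finset V) (i₀ : Fin r),
    (∀ i, (part H c i).card = y i) ∧ w ∉ H ∧ u ∉ H ∧ w ≠ u ∧ A ⊆ H ∧ B ⊆ H ∧
    part A c i₀ = ∅ ∧ part B c i₀ = ∅ ∧ (∀ i, i ≠ i₀ → (part A c i).Nonempty) ∧
    (∀ i, i ≠ i₀ → (part B c i).card = 1) ∧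
    (∃ b, b ∈ B ∧ b ∉ A ∧ ∀ a, a ∈ B → a ∉ A → a = b) ∧
    (∀ k, k ≠ i₀ → y k ≤ y i₀) ∧ SmallFirst H A c {i₀} ∧
    ∀ a b, G.Adj a b ↔
      (a ∈ H ∧ b ∈ H ∧ c a ≠ c b) ∨ (a = w ∧ b ∈ A) ∨ (b = w ∧ a ∈ A) ∨
        (a = u ∧ b ∈ B) ∨ (b = u ∧ a ∈ B) ∨ (a = w ∧ b = u) ∨ (a = u ∧ b = w)

/-- Form S over the class sizes `y`: the complete multipartite graph on `H` without the edges
between a vertex `p` and the vertices of a set `L` of at least two vertices of the class of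
`q ∈ L`, and a vertex `w` joined exactly to a set `T` consisting of one vertex of each class,
among them `p` and `q`; the other vertices are isolated. The class of `p` is the largest one, the
class of `q` the second largest one. -/
def FormS {V : Type} {r : ℕ} (y : Fin r → ℕ) (G : SimpleGraph V) : Prop :=
  ∃ (H : Finset V) (c : V → Fin r) (w : V) (T L : Finset V) (p q : V),
    (∀ i, (part H c i).card = y i) ∧ w ∉ H ∧ T ⊆ H ∧ (∀ i, (part T c i).card = 1) ∧
    p ∈ T ∧ q ∈ T ∧ c p ≠ c q ∧ L ⊆ part H c (c q) ∧ q ∈ L ∧ 2 ≤ L.card ∧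
    y (c q) < y (c p) ∧ (∀ k, k ≠ c p → k ≠ c q → y k < y (c q)) ∧
    ∀ a b, G.Adj a b ↔
      (a ∈ H ∧ b ∈ H ∧ c a ≠ c b ∧ ¬ (a = p ∧ b ∈ L) ∧ ¬ (b = p ∧ a ∈ L)) ∨
        (a = w ∧ b ∈ T) ∨ (b = w ∧ a ∈ T)

/-- `m - (e(K(y)) + r - 1)`, where `e(K(y))` is the number of edges of the complete `r`-partite
graph with class sizes `y`. For the graphs with `m` edges of the form D it is `|A| - r`, for the
form E it is `|A| + 1`, for the form S it is `1 - |L|`. -/
noncomputable def excess {r : ℕ} (m : ℕ) (y : Fin r → ℕ) : ℝ :=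
  m - (((∑ i, (y i : ℝ)) ^ 2 - ∑ i, (y i : ℝ) ^ 2) / 2 + (r - 1))

/-- Among all class sizes with the same sum and the same sum of squares (so that the complete
multipartite graphs have the same numbers of vertices and of edges), `y` maximises
`∑ y_l³ + (2 r / (r - 1)) (y_i + y_k)`, `i ≠ k` (the two largest entries). -/
def MaxPhi {r : ℕ} (y : Fin r → ℕ) : Prop :=
  ∃ i' k' : Fin r, i' ≠ k' ∧ ∀ (z : Fin r → ℕ) (i k : Fin r), i ≠ k → ∑ l, z l = ∑ l, y l →
    ∑ l, z l ^ 2 = ∑ l, y l ^ 2 →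
    ∑ l, (z l : ℝ) ^ 3 + 2 * (r : ℝ) / ((r : ℝ) - 1) * ((z i : ℝ) + z k) ≤
      ∑ l, (y l : ℝ) ^ 3 + 2 * (r : ℝ) / ((r : ℝ) - 1) * ((y i' : ℝ) + y k')

/-- `(1/n) ∑ (y_i - n/r)³ - (1/n²) ∑ (y_i - n/r)⁴`, `n = ∑ y_i` -/
noncomputable def skew {r : ℕ} (y : Fin r → ℕ) : ℝ :=
  (∑ i, ((y i : ℝ) - ((∑ l, y l : ℕ) : ℝ) / r) ^ 3) / ((∑ l, y l : ℕ) : ℝ) -
    (∑ i, ((y i : ℝ) - ((∑ l, y l : ℕ) : ℝ) / r) ^ 4) / ((∑ l, y l : ℕ) : ℝ) ^ 2

/-- The cost of the forms D, E, S if the excess is `k`: `2 k` for `k ≥ 0`,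
`2 k - 2 - 2 / (r - 1)` for `k ≥ r`, `2 |k| / (r - 1)` for `k ≤ -1`. -/
def Cost (r : ℕ) (k c : ℝ) : Prop :=
  (0 ≤ k ∧ c = 2 * k) ∨ ((r : ℝ) ≤ k ∧ c = 2 * k - 2 - 2 / ((r : ℝ) - 1)) ∨
    (k ≤ -1 ∧ c = -(2 * k / ((r : ℝ) - 1)))

/-- The class sizes `y` with cost `c` minimise `cost - skew` among all class sizes with the same
sum `n`, up to an error `K (1 + |k| + |k'|) / √n`, `k` and `k'` the values of the excess. -/
def Minimal {r : ℕ} (K : ℝ) (m : ℕ) (y : Fin r → ℕ) (c : ℝ) : Prop :=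
  ∀ (z : Fin r → ℕ) (c' : ℝ), ∑ i, z i = ∑ i, y i → Cost r (excess m z) c' →
    c - skew y ≤ c' - skew z +
      K * (1 + |excess m y| + |excess m z|) / √((∑ l, y l : ℕ) : ℝ)

/-- `X⁴ / (2 r (r - 2))` if `N = 0` or `1` modulo `r`, otherwise `0` -/
noncomputable def theta (r N : ℕ) (X : ℝ) : ℝ :=
  if N % r ≤ 1 then X ^ 4 / (2 * r * ((r : ℝ) - 2)) else 0

/-- `1 - 2/r - (4 (r - 1) (r - 2) / r^(5/2)) / √N` -/
noncomputable def thr (r N : ℕ) : ℝ :=
  1 - 2 / (r : ℝ) - 4 * ((r : ℝ) - 1) * ((r : ℝ) - 2) / ((r : ℝ) ^ 2 * √(r : ℝ)) / √(N : ℝ)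

/-- The description of the extremal graphs with `m = t_r(N) + j` edges, `X = ratio r N j`. There
are class sizes `y` such that
(1) `j ≤ r - 2`, form D with excess `0` over `N` vertices, `MaxPhi`;
(2) but for `j = 0` and `r = 3`, `3 ∣ N` or `r = 4`, `N = 2 mod 4` form S over `N` vertices with `r`
consecutive class sizes;
(3) `j ≥ r - 1`, `j ≠ 2r - 2`, form D over the balanced class sizes (the Turan graph `T_r(N)`),
`(r+1) X ≥ 1 + theta - K/N` if `j ≥ 2r - 1`, and `X ≤ thr + K e/N`, `e = 1` for `r ≥ 6` and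
`e = N^(1/4)` for `r ≤ 5`;
(4) `j = 2r - 2`, form E with excess `r` over `N` vertices, the class sizes maximise the sum of the
cubes among all vectors with the same sum and sum of squares;
(5) `j ≥ 2r - 1`, form E over the balanced class sizes, `(r+1) X ≤ 1 + theta + K/N`;
(6) `r ≥ 6`, `X ≥ thr - K/N`, form D with excess `0` over `N + 1` vertices, `MaxPhi`;
(7) `r ≤ 5`, form D, E or S over `n = N + 1` vertices with excess `k`, `|k| ≤ K n^(1/4)`,
`X ≥ thr - K (1 + |k|)/N`, and cost `c` such that `cost - skew` is minimal up to the error in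
`Minimal`; if there are class sizes `z` with sum `n`, excess `0` and `(∑ (z_i - n/r)²)³ ≤ κ n²`,
then `k = 0`, and `y` satisfies `MaxPhi` if `(∑ (z_i - n/r)²)² ≤ κ n`. -/
def Described {V : Type} (r : ℕ) (K κ : ℝ) (m N j : ℕ) (G : SimpleGraph V) : Prop :=
  ∃ y : Fin r → ℕ,
    (j + 1 < r ∧ ¬ (j = 0 ∧ ((r = 3 ∧ N % 3 = 0) ∨ (r = 4 ∧ N % 4 = 2))) ∧
      ∑ i, y i = N ∧ excess m y = 0 ∧ MaxPhi y ∧ FormD y G) ∨
    ((j = 0 ∧ ((r = 3 ∧ N % 3 = 0) ∨ (r = 4 ∧ N % 4 = 2))) ∧ ∑ i, y i = N ∧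
      (∃ (σ : Equiv.Perm (Fin r)) (a : ℕ), ∀ i, y (σ i) = a + i) ∧ FormS y G) ∨
    (r - 1 ≤ j ∧ j ≠ 2 * r - 2 ∧ ∑ i, y i = N ∧ (∀ i k, y i ≤ y k + 1) ∧ FormD y G ∧
      (2 * r - 1 ≤ j →
        1 + theta r N (ratio r N j) - K / N ≤ ((r : ℝ) + 1) * ratio r N j) ∧
      ratio r N j ≤ thr r N + K * (if 6 ≤ r then 1 else √(√(N : ℝ))) / N) ∨
    (j = 2 * r - 2 ∧ ∑ i, y i = N ∧ excess m y = r ∧ FormE y G ∧
      ∀ z : Fin r → ℕ, ∑ i, z i = ∑ i, y i → ∑ i, z i ^ 2 = ∑ i, y i ^ 2 →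
        ∑ i, z i ^ 3 ≤ ∑ i, y i ^ 3) ∨
    (2 * r - 1 ≤ j ∧ ∑ i, y i = N ∧ (∀ i k, y i ≤ y k + 1) ∧ FormE y G ∧
      ((r : ℝ) + 1) * ratio r N j ≤ 1 + theta r N (ratio r N j) + K / N) ∨
    (6 ≤ r ∧ thr r N - K / N ≤ ratio r N j ∧
      ∑ i, y i = N + 1 ∧ excess m y = 0 ∧ MaxPhi y ∧ FormD y G) ∨
    (r ≤ 5 ∧ ∑ i, y i = N + 1 ∧ |excess m y| ≤ K * √(√((N : ℝ) + 1)) ∧
      thr r N - K * (1 + |excess m y|) / N ≤ ratio r N j ∧
      (∃ c : ℝ, ((FormD y G ∧ 0 ≤ excess m y ∧ c = 2 * excess m y) ∨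
        (FormE y G ∧ (r : ℝ) ≤ excess m y ∧ c = 2 * excess m y - 2 - 2 / ((r : ℝ) - 1)) ∨
        (FormS y G ∧ excess m y ≤ -1 ∧ c = -(2 * excess m y / ((r : ℝ) - 1)))) ∧
        Minimal K m y c) ∧
      ∀ z : Fin r → ℕ, ∑ i, z i = N + 1 → excess m z = 0 →
        (∑ i, ((z i : ℝ) - ((N : ℝ) + 1) / r) ^ 2) ^ 3 ≤ κ * ((N : ℝ) + 1) ^ 2 →
        excess m y = 0 ∧
          ((∑ i, ((z i : ℝ) - ((N : ℝ) + 1) / r) ^ 2) ^ 2 ≤ κ * ((N : ℝ) + 1) → MaxPhi y))

open Pool.Agent.Work.MP_5532fa_up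

theorem kk_eq {r m n : ℕ} {y : Fin r → ℕ} (h : ∑ i, y i = n) : kk m n y = excess m y := by
  unfold kk excess
  have e : (∑ i, (y i : ℝ)) = (n : ℝ) := by exact_mod_cast h
  rw [e]
  ring

theorem M34_eq {r n : ℕ} {y : Fin r → ℕ} (h : ∑ i, y i = n) : M34 n y = skew y := by
  unfold M34 skew mo re
  rw [h]

theorem sum_of {V : Type} [Fintype V] {r n : ℕ} {H : Finset V} {c : V → Fin r} {y : Fin r → ℕ}
    (h : H.card = n) (hy : ∀ i, (part H c i).card = y i) : ∑ i, y i = n := by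
  rw [← h, ← sum_card_cl H c]
  exact Finset.sum_congr rfl fun i _ => (hy i).symm

theorem formD_iff {V : Type} [Fintype V] {r n : ℕ} {y : Fin r → ℕ} {G : SimpleGraph V}
    (hn : ∑ i, y i = n) : FormD y G ↔ FamD n y G := by
  constructor
  · rintro ⟨H, c, w, A, v₁, v₂, h1, h2, h3, h4, h5, h6, h7, h8, h9, h10⟩
    have hc : H.card = n := by
      rw [← hn, ← sum_card_cl H c]
      exact Finset.sum_congr rfl fun i _ => h1 i
    refine ⟨H, c, w, A, v₁, v₂, ⟨hc, h2, h3, h5, h6, h7, h4, h10⟩, h1, h9, ?_⟩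
    intro i k hi hk
    have e1 : (cl H c i).card = y i := h1 i
    have e2 : (cl H c k).card = y k := h1 k
    rw [e1, e2]
    simp only [Finset.mem_insert, Finset.mem_singleton, not_or] at hi hk
    rcases hi with rfl | rfl
    · exact (h8 k hk.1 hk.2).1
    · exact (h8 k hk.1 hk.2).2
  · rintro ⟨H, c, w, A, v₁, v₂, ⟨hc, h2, h3, h5, h6, h7, h4, h10⟩, h1, h9, h8⟩
    refine ⟨H, c, w, A, v₁, v₂, h1, h2, h3, h4, h5, h6, h7, ?_, h9, h10⟩
    intro k hk1 hk2
    have hk : k ∉ ({c v₁, c v₂} : Finset (Fin r)) := by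
      simp only [Finset.mem_insert, Finset.mem_singleton, not_or]
      exact ⟨hk1, hk2⟩
    rw [← h1 k, ← h1 (c v₁), ← h1 (c v₂)]
    exact ⟨h8 _ k (by simp) hk, h8 _ k (by simp) hk⟩

theorem formE_iff {V : Type} [Fintype V] {r n : ℕ} {y : Fin r → ℕ} {G : SimpleGraph V}
    (hn : ∑ i, y i = n) : FormE y G ↔ FamE n y G := by
  constructor
  · rintro ⟨H, c, w, u, A, B, i₀, h1, h2, h3, h4, h5, h6, h7, h8, h9, h10, h11, h12, h13, h14⟩
    have hc : H.card = n := by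
      rw [← hn, ← sum_card_cl H c]
      exact Finset.sum_congr rfl fun i _ => h1 i
    refine ⟨H, c, w, u, A, B, i₀, ⟨hc, h2, h3, h4, h5, h6, h7, h8, h9, h10, ?_, h14⟩, h1, h11,
      h13, ?_⟩
    · obtain ⟨b, hb, hb', _⟩ := h11
      exact fun h => hb' (h hb)
    · intro i k hi hk
      rw [Finset.mem_singleton] at hi hk
      have e1 : (cl H c i).card = y i := h1 i
      have e2 : (cl H c k).card = y k := h1 k
      rw [e1, e2, hi]
      exact h12 k hk
  · rintro ⟨H, c, w, u, A, B, i₀, ⟨hc, h2, h3, h4, h5, h6, h7, h8, h9, h10, _, h14⟩, h1, h11,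
      h13, h12⟩
    refine ⟨H, c, w, u, A, B, i₀, h1, h2, h3, h4, h5, h6, h7, h8, h9, h10, h11, ?_, h13, h14⟩
    intro k hk
    rw [← h1 k, ← h1 i₀]
    exact h12 i₀ k (Finset.mem_singleton.mpr rfl) (fun h => hk (Finset.mem_singleton.mp h))

theorem formS_iff {V : Type} [Fintype V] {r n : ℕ} {y : Fin r → ℕ} {G : SimpleGraph V}
    (hn : ∑ i, y i = n) : FormS y G ↔ FamS n y G := by
  constructor
  · rintro ⟨H, c, w, T, L, p, q, h1, h2, h3, h4, h5, h6, h7, h8, h9, h10, h11, h12, h13⟩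
    have hc : H.card = n := by
      rw [← hn, ← sum_card_cl H c]
      exact Finset.sum_congr rfl fun i _ => h1 i
    refine ⟨H, c, w, T, L, p, q, ⟨hc, h2, h3, h4, h5, h6, h7, h8, h9, h13⟩, h1, h10, ?_, ?_⟩
    · have e1 : (cl H c (c q)).card = y (c q) := h1 _
      have e2 : (cl H c (c p)).card = y (c p) := h1 _
      rw [e1, e2]
      exact h11
    · intro i hi1 hi2
      have e1 : (cl H c (c q)).card = y (c q) := h1 _
      have e2 : (cl H c i).card = y i := h1 _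
      rw [e1, e2]
      exact h12 i hi1 hi2
  · rintro ⟨H, c, w, T, L, p, q, ⟨hc, h2, h3, h4, h5, h6, h7, h8, h9, h13⟩, h1, h10, h11, h12⟩
    refine ⟨H, c, w, T, L, p, q, h1, h2, h3, h4, h5, h6, h7, h8, h9, h10, ?_, ?_, h13⟩
    · rw [← h1 (c q), ← h1 (c p)]
      exact h11
    · intro k hk1 hk2
      rw [← h1 k, ← h1 (c q)]
      exact h12 k hk1 hk2

theorem gadP_of {V : Type} [Fintype V] {r n m : ℕ} (hr : 3 ≤ r) {G : SimpleGraph V}
    (hE : MP5532fa.pE G = 2 * (m : ℝ)) (h : GadP (r := r) n G) :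
    ∃ y : Fin r → ℕ, ∑ i, y i = n ∧ excess m y = 0 ∧ MaxPhi y ∧ FormD y G := by
  obtain ⟨H, c, w, A, v1, v2, hW, hA, hT, hP⟩ := h
  have hn : ∑ i, (cl H c i).card = n := by rw [sum_card_cl, hW.card]
  have hcard : ∀ i, (cl A c i).card = 1 := by
    have hge : ∀ i ∈ (Finset.univ : Finset (Fin r)), 1 ≤ (cl A c i).card :=
      fun i _ => Finset.card_pos.mpr (hW.hne i)
    have hsum : ∑ i : Fin r, 1 = ∑ i, (cl A c i).card := by
      rw [sum_card_cl, hA]
      simp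
    intro i
    exact ((Finset.sum_eq_sum_iff_of_le hge).mp hsum i (Finset.mem_univ i)).symm
  refine ⟨fun i => (cl H c i).card, hn, ?_, ?_, ?_⟩
  · have h1 := (pGD r hr V G n H c w A v1 v2 hW).2.2
    rw [hE, hA] at h1
    have h2 : ∑ i, (((cl H c i).card : ℕ) : ℝ) = n := by exact_mod_cast hn
    have h3 : ∑ i, sz H c i ^ 2 = ∑ i, (((cl H c i).card : ℕ) : ℝ) ^ 2 := rfl
    unfold excess
    rw [h2, ← h3]
    linarith
  · refine ⟨c v1, c v2, hW.h12, ?_⟩
    intro z i k hik hz1 hz2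
    exact hP z i k hik (hz1.trans hn) hz2
  · rw [formD_iff hn]
    refine ⟨H, c, w, A, v1, v2, hW, fun i => rfl, ?_, hT⟩
    intro i k _ _
    rw [hcard i, hcard k]
    exact ⟨fun _ => by omega, fun _ => Or.inr rfl⟩

theorem edges_iff {V : Type} [Fintype V] (G : SimpleGraph V) (m : ℕ) :
    MP5532fa.pE G = 2 * (m : ℝ) ↔ G.edgeSet.ncard = m := by
  rw [MP5532fa.pE_eq]
  constructor
  · intro e
    have : (G.edgeSet.ncard : ℝ) = m := by linarith
    exact_mod_cast this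
  · intro e
    rw [e]

theorem ext_iff {V : Type} [Fintype V] {r m : ℕ} {G : SimpleGraph V} :
    IsExtremal r m G ↔ Ext r m G := by
  constructor
  · rintro ⟨⟨h1, h2, h3⟩, h4⟩
    exact ⟨h1, h2, (edges_iff G m).mpr h3,
      fun V' _ G' a b e => h4 V' G' ⟨a, b, (edges_iff G' m).mp e⟩⟩
  · rintro ⟨h1, h2, h3, h4⟩
    refine ⟨⟨h1, h2, (edges_iff G m).mp h3⟩, ?_⟩
    rintro V' _ G' ⟨a, b, e⟩
    exact h4 V' G' a b ((edges_iff G' m).mpr e)

theorem thr_eq {r N : ℕ} : thr r N = 1 - 2 / r - gam r / √(N : ℝ) := rfl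

theorem described_of {V : Type} [Fintype V] {r m N j : ℕ} {K κ : ℝ} (hr : 3 ≤ r)
    {G : SimpleGraph V} (hE : MP5532fa.pE G = 2 * (m : ℝ)) (hm : m = tn r N + j)
    (hA : ∀ (y : Fin r → ℕ) (c : ℝ), |kk m (N + 1) y| ≤ K * √(√((N + 1 : ℕ) : ℝ)) →
      OptR m (N + 1) K y c → OptA m (N + 1) K y c)
    (h : Form8 r K κ m N j G) : Described r K κ m N j G := by
  rcases h with ⟨h1, h2, h3⟩ | ⟨h1, h2⟩ | ⟨h1, h2, h3, h4, h5⟩ | ⟨h1, h2⟩ | ⟨h1, h2, h3⟩ |
    ⟨h1, h2, h3⟩ | ⟨h1, n, y, c0, hn1, hn, hd, hk, hF, hO, hX, hsp⟩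
  · obtain ⟨y, a1, a2, a3, a4⟩ := gadP_of hr hE h3
    exact ⟨y, Or.inl ⟨h1, h2, a1, a2, a3, a4⟩⟩
  · obtain ⟨H, c, w, T, L, p, q, hW, hL, ⟨σ, a, hσ⟩, hq, hi⟩ := h2
    have hn : ∑ i, (cl H c i).card = N := by rw [sum_card_cl, hW.card]
    refine ⟨fun i => (cl H c i).card, Or.inr (Or.inl ⟨h1, hn, ⟨σ, a, hσ⟩, ?_⟩)⟩
    rw [formS_iff hn]
    exact ⟨H, c, w, T, L, p, q, hW, fun i => rfl, hL.ge, hq, hi⟩
  · obtain ⟨H, c, w, A, v1, v2, hW, hA, hB, hP, hT⟩ := h3
    have hn : ∑ i, (cl H c i).card = N := by rw [sum_card_cl, hW.card]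
    refine ⟨fun i => (cl H c i).card, Or.inr (Or.inr (Or.inl ⟨by omega, by omega, hn, hB, ?_,
      fun h => h4 (by omega), h5⟩))⟩
    rw [formD_iff hn]
    exact ⟨H, c, w, A, v1, v2, hW, fun i => rfl, hP, hT⟩
  · obtain ⟨H, c, w, u, A, B, i0, hW, hO, hA, hT, hsq, hcub⟩ := h2
    have hn : ∑ i, (cl H c i).card = N := by rw [sum_card_cl, hW.card]
    refine ⟨fun i => (cl H c i).card, Or.inr (Or.inr (Or.inr (Or.inl ⟨by omega, hn, ?_, ?_,
      fun z hz1 hz2 => hcub z (hz1.trans hn) hz2⟩)))⟩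
    · have h2 : ∑ i, (((cl H c i).card : ℕ) : ℝ) = N := by exact_mod_cast hn
      have h3 : ∑ i, (((cl H c i).card : ℕ) : ℝ) ^ 2 + 2 * (tn r N : ℝ) = (N : ℝ) ^ 2 + 2 := by
        exact_mod_cast hsq
      have h4 : (m : ℝ) = tn r N + j := by rw [hm]; push_cast; ring
      have h5 : (j : ℝ) + 2 = 2 * r := by exact_mod_cast h1
      unfold excess
      rw [h2, h4]
      linarith
    · rw [formE_iff hn]
      have hcA : A.card = r - 1 := by omega
      have hone : ∀ i, i ≠ i0 → (cl A c i).card = 1 := by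
        have hge : ∀ i ∈ (Finset.univ.erase i0 : Finset (Fin r)), 1 ≤ (cl A c i).card :=
          fun i hi => Finset.card_pos.mpr (hW.hAne i (Finset.ne_of_mem_erase hi))
        have hs : ∑ i ∈ Finset.univ.erase i0, (cl A c i).card = A.card := by
          rw [← sum_card_cl A c, ← Finset.add_sum_erase _ _ (Finset.mem_univ i0), hW.hA0]
          simp
        have hsum : ∑ i ∈ (Finset.univ.erase i0 : Finset (Fin r)), 1
            = ∑ i ∈ Finset.univ.erase i0, (cl A c i).card := by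
          rw [hs, hcA]
          simp
        intro i hi
        exact ((Finset.sum_eq_sum_iff_of_le hge).mp hsum i
          (Finset.mem_erase.mpr ⟨hi, Finset.mem_univ i⟩)).symm
      refine ⟨H, c, w, u, A, B, i0, hW, fun i => rfl, hO, ?_, hT⟩
      intro i k hi hk
      rw [Finset.mem_singleton] at hi hk
      rw [hone i hi, hone k hk]
      exact ⟨fun _ => by omega, fun _ => Or.inr rfl⟩
  · obtain ⟨H, c, w, u, A, B, i0, hW, hO, hA, hB, hP, hT⟩ := h2
    have hn : ∑ i, (cl H c i).card = N := by rw [sum_card_cl, hW.card]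
    refine ⟨fun i => (cl H c i).card, Or.inr (Or.inr (Or.inr (Or.inr (Or.inl ⟨by omega, hn, hB,
      ?_, h3⟩))))⟩
    rw [formE_iff hn]
    exact ⟨H, c, w, u, A, B, i0, hW, fun i => rfl, hO, hP, hT⟩
  · obtain ⟨y, a1, a2, a3, a4⟩ := gadP_of hr hE h3
    exact ⟨y, Or.inr (Or.inr (Or.inr (Or.inr (Or.inr (Or.inl ⟨h1, h2, a1, a2, a3, a4⟩)))))⟩
  · subst hn1
    have e1 : ((N + 1 : ℕ) : ℝ) = (N : ℝ) + 1 := by push_cast; ring
    have hO' := hA y c0 hk hO
    rw [kk_eq hn] at hk hX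
    refine ⟨y, Or.inr (Or.inr (Or.inr (Or.inr (Or.inr (Or.inr ⟨by omega, hn, ?_, hX,
      ⟨c0, ?_, ?_⟩, ?_⟩)))))⟩
    · rw [e1] at hk
      exact hk
    · unfold FormC at hF
      rw [kk_eq hn, ← formD_iff hn, ← formE_iff hn, ← formS_iff hn] at hF
      exact hF
    · intro z c' hz1 hz4
      have hzn : ∑ i, z i = N + 1 := hz1.trans hn
      have h := hO' z c' hzn (by rw [kk_eq hzn]; exact hz4)
      rw [kk_eq hn, kk_eq hzn, M34_eq hn, M34_eq hzn, ← hn] at h
      exact h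
    · intro z hz1 hz2 hz3
      have hz2' : kk m (N + 1) z = 0 := by rw [kk_eq hz1]; exact hz2
      rw [← e1] at hz3
      obtain ⟨b1, b2⟩ := hsp z hz1 hz2' hz3
      rw [kk_eq hn] at b1
      refine ⟨b1, fun h => ?_⟩
      rw [← e1] at h
      obtain ⟨i', k', b3, b4⟩ := b2 h
      exact ⟨i', k', b3, fun x i k hik hx1 hx2 => b4 x i k hik (hx1.trans hn) hx2⟩

theorem RR_win {r N j m : ℕ} (hr : 3 ≤ r) (hN : 2 * r ^ 2 ≤ N) (hmj : m = tn r N + j)
    (hlt : m < tn r (N + 1)) :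
    (r : ℝ) ≤ RR r m (N + 1) ∧ RR r m (N + 1) ≤ 2 * ((N + 1 : ℕ) : ℝ) := by
  have hr2 : 9 ≤ r ^ 2 := by nlinarith only [hr]
  obtain ⟨h1, h2⟩ := X_WINB.RR_bd hr (by omega : 0 < N) hmj hlt rfl
  refine ⟨h1, ?_⟩
  have hrr : (3 : ℝ) ≤ r := by exact_mod_cast hr
  have hr0 : (0 : ℝ) < r := by linarith only [hrr]
  have hNN : 2 * (r : ℝ) ^ 2 ≤ N := by exact_mod_cast hN
  have hN0 : (0 : ℝ) < N := by
    have : 0 < (r : ℝ) ^ 2 := by positivity
    linarith only [hNN, this]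
  have hal : al r = 1 - 1 / (r : ℝ) := rfl
  have hal0 : 0 < al r := by
    rw [hal, sub_pos, div_lt_one hr0]
    linarith only [hrr]
  have h3 := (abs_le.mp h2).2
  have h4 : 2 * al r * N * (1 - j / (al r * N)) = 2 * al r * N - 2 * j := by
    field_simp
  have h5 : 2 * al r * (N : ℝ) = 2 * N - 2 * (N / r) := by rw [hal]; ring
  have h6 : 2 * (r : ℝ) ≤ N / r := by
    rw [le_div_iff₀ hr0]
    linarith only [hNN]
  have h7 : (0 : ℝ) ≤ j := by positivity
  push_cast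
  rw [h4, h5] at h3
  linarith only [h3, h6, h7]

/-- Let `r ≥ 3`. There are `K`, `κ > 0` such that for all large `m`, `m = t_r(N) + j < t_r(N+1)`:
among the finite graphs with `m` edges without a clique on `r + 1` vertices which are not
`r`-colourable one of largest spectral radius exists, and the graphs of largest spectral radius are
those graphs in the class described by `Described` which have the largest spectral radius among
all of them. Moreover the extremal graph is determined by its form and its class sizes: every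
graph with `m` edges in the class which has the form D, E or S over the same class sizes (up to
their order) as an extremal graph is extremal, and it is equal to it up to isolated vertices for
the forms D and S. -/
theorem result (r : ℕ) (hr : 3 ≤ r) :
    (∃ (K κ : ℝ) (m₀ : ℕ), 0 < κ ∧ ∀ m ≥ m₀, ∀ N j : ℕ, m = t r N + j → m < t r (N + 1) →
      (∃ G : SimpleGraph (Fin (2 * m)), IsExtremal r m G) ∧
      ∀ (V : Type) [Fintype V] (G : SimpleGraph V), IsExtremal r m G ↔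
        InClass r m G ∧ Described r K κ m N j G ∧
          ∀ (V' : Type) [Fintype V'] (G' : SimpleGraph V'), InClass r m G' →
            Described r K κ m N j G' → spectralRadius G' ≤ spectralRadius G) ∧
    ∀ (m : ℕ) (V V' : Type) [Fintype V] [Fintype V'] (G : SimpleGraph V)
      (G' : SimpleGraph V') (y y' : Fin r → ℕ) (σ : Equiv.Perm (Fin r)), IsExtremal r m G →
      InClass r m G' → (∀ i, y' (σ i) = y i) →
      (FormD y G ∧ FormD y' G' ∨ FormE y G ∧ FormE y' G' ∨ FormS y G ∧ FormS y' G') →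
      IsExtremal r m G' ∧ (¬ FormE y G → ∃ (W : Type) (F : SimpleGraph W),
        IsUpToIsolated G F ∧ IsUpToIsolated G' F) := by
  refine ⟨?_, ?_⟩
  · obtain ⟨K, κ, m1, hK, hκ, H1⟩ := q_MAINF r hr
    obtain ⟨m4, H4⟩ := pEXT r hr
    obtain ⟨n0, HO⟩ := q_OPTA r hr K hK
    refine ⟨K, κ, m1 + m4 + (n0 + 2 * r ^ 2) ^ 2 + 1, hκ, fun m hm N j hmj hlt => ?_⟩
    have hNM : n0 + 2 * r ^ 2 ≤ N := large_N pTN hr _ (by omega) hlt
    obtain ⟨hR1, hR2⟩ := RR_win hr (by omega) hmj hlt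
    obtain ⟨G₀, h1, h2, h3, h4⟩ := H4 m (by omega)
    have hG₀ : IsExtremal r m G₀ := ext_iff.mpr ⟨h1, h2, h3, h4⟩
    have hdes : ∀ (V : Type) [Fintype V] (G : SimpleGraph V), IsExtremal r m G →
        Described r K κ m N j G := by
      intro V _ G hG
      have hG' := ext_iff.mp hG
      exact described_of hr hG'.2.2.1 hmj (fun y c => HO (N + 1) (by omega) m y c hR1 hR2)
        (H1 m (by omega) N j hmj hlt V G hG')
    refine ⟨⟨G₀, hG₀⟩, fun V _ G => ⟨fun hG => ?_, ?_⟩⟩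
    · exact ⟨hG.1, hdes V G hG, fun V' _ G' hG' _ => hG.2 V' G' hG'⟩
    · rintro ⟨hG, _, hmax⟩
      exact ⟨hG, fun V' _ G' hG' =>
        (hG₀.2 V' G' hG').trans (hmax _ G₀ hG₀.1 (hdes _ G₀ hG₀))⟩
  · intro m V V' _ _ G G' y y' σ hG hG' hσ hFF
    have e1 : MP5532fa.pE G = MP5532fa.pE G' := by
      rw [(edges_iff G m).mpr hG.1.2.2, (edges_iff G' m).mpr hG'.2.2]
    have hs : ∑ i, y' i = ∑ i, y i := by
      rw [← Equiv.sum_comp σ y']
      exact Finset.sum_congr rfl fun i _ => hσ i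
    have hext : MP5532fa.specRad G = MP5532fa.specRad G' → IsExtremal r m G' := by
      intro e
      refine ⟨hG', fun V'' _ G'' hG'' => ?_⟩
      have : spectralRadius G = spectralRadius G' := e
      rw [← this]
      exact hG.2 V'' G'' hG''
    rcases hFF with ⟨a, b⟩ | ⟨a, b⟩ | ⟨a, b⟩
    · obtain ⟨c1, W, F, c2, c3⟩ := q_UND r _ y y' σ hr hσ V V' G G' e1
        ((formD_iff rfl).mp a) ((formD_iff hs).mp b)
      exact ⟨hext c1, fun _ => ⟨W, F, c2, c3⟩⟩
    · exact ⟨hext (q_UNE r _ y y' σ hr hσ V V' G G' e1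
        ((formE_iff rfl).mp a) ((formE_iff hs).mp b)), fun h => absurd a h⟩
    · obtain ⟨c1, W, F, c2, c3⟩ := q_UNS r _ y y' σ hr hσ V V' G G' e1
        ((formS_iff rfl).mp a) ((formS_iff hs).mp b)
      exact ⟨hext c1, fun _ => ⟨W, F, c2, c3⟩⟩

end Pool.Agent.Results.MP_5532fa_co.ExtremalGraphs
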