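import Pool.Agent.Work.MP_5532fa_x.Asm9

/-!
# MP_5532fa_co : the value of the maximum up to `O(1/√m)`
-/

namespace Pool.Agent.Results.MP_5532fa_co.MaximumValue

open Classical in
/-- The spectral radius of a finite graph: the largest real eigenvalue of the adjacency matrix. -/
noncomputable def spectralRadius {V : Type*} [Fintype V] (G : SimpleGraph V) : ℝ :=
  sSup (spectrum ℝ (G.adjMatrix ℝ))

/-- `G` has `m` edges, no clique on `r + 1` vertices and is not `r`-colourable. -/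
def InClass {V : Type} (r m : ℕ) (G : SimpleGraph V) : Prop :=
  G.CliqueFree (r + 1) ∧ ¬ G.Colorable r ∧ G.edgeSet.ncard = m

/-- `G` has the largest spectral radius among all finite graphs in `InClass r m`. -/
def IsExtremal {V : Type} [Fintype V] (r m : ℕ) (G : SimpleGraph V) : Prop :=
  InClass r m G ∧ ∀ (V' : Type) [Fintype V'] (G' : SimpleGraph V'), InClass r m G' →
    spectralRadius G' ≤ spectralRadius G

/-- The number of edges of the Turan graph `T_r(N)`. -/
noncomputable def t (r N : ℕ) : ℕ := (SimpleGraph.turanGraph N r).edgeSet.ncard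

/-- `X = j / ((1 - 1/r) N)`; for `t_r(N) + j < t_r(N+1)` it lies between `0` and `1`. -/
noncomputable def ratio (r N j : ℕ) : ℝ := (j : ℝ) / ((1 - 1 / (r : ℝ)) * N)

/-- `R = (1 - 1/r) (N+1)² - 2 m + 2 (r - 1)` -/
noncomputable def gap (r m N : ℕ) : ℝ :=
  (1 - 1 / (r : ℝ)) * ((N : ℝ) + 1) ^ 2 - 2 * m + 2 * ((r : ℝ) - 1)

/-- `(1 - 1/r) max (N + X², (N+1) - R/(N+1) + ((r-2)/√(r(r-1))) R^(3/2)/(N+1)²)`, where
`m = t_r(N) + j`, `X = ratio r N j`, `R = gap r m N`. -/
noncomputable def value (r m N j : ℕ) : ℝ :=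
  (1 - 1 / (r : ℝ)) * max (N + ratio r N j ^ 2)
    ((N : ℝ) + 1 - gap r m N / ((N : ℝ) + 1) +
      ((r : ℝ) - 2) / √((r : ℝ) * ((r : ℝ) - 1)) * (gap r m N * √(gap r m N)) /
        ((N : ℝ) + 1) ^ 2)

open Pool.Agent.Work.MP_5532fa_up

theorem edges_iff {V : Type} [Fintype V] (G : SimpleGraph V) (m : ℕ) :
    MP5532fa.pE G = 2 * (m : ℝ) ↔ G.edgeSet.ncard = m := by
  rw [MP5532fa.pE_eq]
  constructor
  · intro e
    have : (G.edgeSet.ncard : ℝ) = m := by linarith
    exact_mod_cast this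
  · intro e
    rw [e]

theorem ext_iff {V : Type} [Fintype V] {r m : ℕ} {G : SimpleGraph V} :
    IsExtremal r m G ↔ Ext r m G := by
  constructor
  · rintro ⟨⟨h1, h2, h3⟩, h4⟩
    exact ⟨h1, h2, (edges_iff G m).mpr h3,
      fun V' _ G' a b e => h4 V' G' ⟨a, b, (edges_iff G' m).mp e⟩⟩
  · rintro ⟨h1, h2, h3, h4⟩
    refine ⟨⟨h1, h2, (edges_iff G m).mp h3⟩, ?_⟩
    rintro V' _ G' ⟨a, b, e⟩
    exact h4 V' G' a b ((edges_iff G' m).mpr e)

theorem value_eq {r m N j : ℕ} (hr : 3 ≤ r) : max (Va r N j) (Vb r m (N + 1)) = value r m N j := by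
  have hal : 0 ≤ 1 - 1 / (r : ℝ) := by
    have h3 : (3 : ℝ) ≤ r := by exact_mod_cast hr
    have : 1 / (r : ℝ) ≤ 1 := by rw [div_le_one (by linarith)]; linarith
    linarith
  unfold value
  rw [mul_max_of_nonneg _ _ hal]
  congr 1
  · unfold Va al ratio
    ring
  · unfold Vb RR kap gap al
    push_cast
    ring

/-- Let `r ≥ 3`. There is `K` such that for all large `m`, `m = t_r(N) + j < t_r(N+1)`: the largest
spectral radius of a finite graph with `m` edges without a clique on `r + 1` vertices which is not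
`r`-colourable exists and differs from `value r m N j` by at most `K/N` if `r ≥ 6`, and by at most
`K N^(1/4)/N` if `r ≤ 5`. -/
theorem result (r : ℕ) (hr : 3 ≤ r) : ∃ (K : ℝ) (m₀ : ℕ), ∀ m ≥ m₀,
    ∀ N j : ℕ, m = t r N + j → m < t r (N + 1) →
      ∃ G : SimpleGraph (Fin (2 * m)), IsExtremal r m G ∧
        |spectralRadius G - value r m N j| ≤ K * (if 6 ≤ r then 1 else √(√(N : ℝ))) / N := by
  obtain ⟨K, m1, _, H1⟩ := q_MAINV r hr
  obtain ⟨m4, H4⟩ := pEXT r hr
  refine ⟨K, m1 + m4, fun m hm N j hmj hlt => ?_⟩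
  obtain ⟨G, h1, h2, h3, h4⟩ := H4 m (by omega)
  refine ⟨G, ext_iff.mpr ⟨h1, h2, h3, h4⟩, ?_⟩
  have h5 := H1 m (by omega) N j hmj hlt _ G ⟨h1, h2, h3, h4⟩
  rw [value_eq hr] at h5
  exact h5

end Pool.Agent.Results.MP_5532fa_co.MaximumValue
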