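import Pool.Agent.Work.MP_5532fa_co.Final

/-!
# MP_5532fa_co : the sharp constant in the bound for non-r-partite graphs without an (r+1)-clique
-/

namespace Pool.Agent.Results.MP_5532fa_co.SharpBound

open Classical in
/-- The spectral radius of a finite graph: the largest real eigenvalue of the adjacency matrix. -/
noncomputable def spectralRadius {V : Type*} [Fintype V] (G : SimpleGraph V) : ℝ :=
  sSup (spectrum ℝ (G.adjMatrix ℝ))

/-- For every `r ≥ 3` there is a constant `K` such that every finite graph `G` with `m` edges,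
without a clique on `r + 1` vertices and not `r`-colourable, satisfies
`λ(G)² ≤ 2 (1 - 1/r) (m - (r + 1)) + K / √m`; and for every `k ≥ 2` there is such a graph with
`m = (r choose 2) k² + r - 1` edges and `λ(G)² ≥ 2 (1 - 1/r) (m - (r + 1))`. -/
theorem result (r : ℕ) (hr : 3 ≤ r) :
    (∃ K : ℝ, ∀ (V : Type) [Fintype V] (G : SimpleGraph V),
      G.CliqueFree (r + 1) → ¬ G.Colorable r →
        spectralRadius G ^ 2 ≤
          2 * (1 - 1 / (r : ℝ)) * ((G.edgeSet.ncard : ℝ) - (r + 1))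
            + K / Real.sqrt (G.edgeSet.ncard)) ∧
    (∀ k : ℕ, 2 ≤ k → ∃ G : SimpleGraph (Option (Fin (r * k))),
      G.CliqueFree (r + 1) ∧ ¬ G.Colorable r ∧
        G.edgeSet.ncard = r.choose 2 * k ^ 2 + (r - 1) ∧
        2 * (1 - 1 / (r : ℝ)) * ((G.edgeSet.ncard : ℝ) - (r + 1)) ≤ spectralRadius G ^ 2) := by
  constructor
  · obtain ⟨q, rfl⟩ : ∃ q, r = q + 1 := ⟨r - 1, by omega⟩
    obtain ⟨K, _, hK⟩ := MP5532fa.bound_main.{0} q (by omega)
    refine ⟨K, fun V _ G h1 h2 => ?_⟩
    have := hK G h1 h2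
    push_cast
    have e : (q : ℝ) + 1 + 1 = q + 2 := by ring
    rw [e]
    exact this
  · intro k hk
    have hN : r ≤ r * k := Nat.le_mul_of_pos_right r (by omega)
    have hr0 : 0 < r := by omega
    have h01 : (⟨0, by omega⟩ : Fin r) ≠ ⟨1, by omega⟩ := by
      intro h
      have := congrArg Fin.val h
      simp at this
    obtain ⟨h1, h2⟩ := MP5532fa.sharp_thm hr hk hN
    have hsz : ∀ i, 2 ≤ MP5532fa.sz (MP5532fa.cT r (r * k) hr0) i := by
      intro i
      rw [MP5532fa.sz_cT, Nat.mul_mod_right, Nat.mul_div_cancel_left _ hr0]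
      simpa using hk
    rw [MP5532fa.pE_eq] at h1
    have hcr : ((r - 1 : ℕ) : ℝ) = (r : ℝ) - 1 := by
      rw [Nat.cast_sub (by omega)]; simp
    have hcard : (MP5532fa.DG (MP5532fa.cT r (r * k) hr0) (MP5532fa.vT r (r * k) hN) ⟨0, by omega⟩
        ⟨1, by omega⟩).edgeSet.ncard = r.choose 2 * k ^ 2 + (r - 1) := by
      have : ((MP5532fa.DG (MP5532fa.cT r (r * k) hr0) (MP5532fa.vT r (r * k) hN) ⟨0, by omega⟩
        ⟨1, by omega⟩).edgeSet.ncard : ℝ) = ((r.choose 2 * k ^ 2 + (r - 1) : ℕ) : ℝ) := by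
        push_cast
        rw [hcr]
        linarith
      exact_mod_cast this
    refine ⟨_, MP5532fa.DG_cliqueFree (MP5532fa.cT_vT hr0 hN) h01,
      MP5532fa.DG_not_col (MP5532fa.cT_vT hr0 hN) h01 hsz, hcard, ?_⟩
    rw [hcard]
    push_cast
    rw [hcr]
    exact h2

end Pool.Agent.Results.MP_5532fa_co.SharpBound
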