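import Pool.Agent.Work.MP_5532fa_x.Asm8

/-!
# MP_5532fa_co : three explicit sequences for `r = 3`, each of the three forms is extremal
-/

namespace Pool.Agent.Results.MP_5532fa_co.ThreeSequences

open Classical in
/-- The spectral radius of a finite graph: the largest real eigenvalue of the adjacency matrix. -/
noncomputable def spectralRadius {V : Type*} [Fintype V] (G : SimpleGraph V) : ℝ :=
  sSup (spectrum ℝ (G.adjMatrix ℝ))

/-- `G` has `m` edges, no clique on `r + 1` vertices and is not `r`-colourable. -/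
def InClass {V : Type} (r m : ℕ) (G : SimpleGraph V) : Prop :=
  G.CliqueFree (r + 1) ∧ ¬ G.Colorable r ∧ G.edgeSet.ncard = m

/-- `G` has the largest spectral radius among all finite graphs in `InClass r m`. -/
def IsExtremal {V : Type} [Fintype V] (r m : ℕ) (G : SimpleGraph V) : Prop :=
  InClass r m G ∧ ∀ (V' : Type) [Fintype V'] (G' : SimpleGraph V'), InClass r m G' →
    spectralRadius G' ≤ spectralRadius G

/-- The vertices of `S` in the class `i`. -/
def part {V : Type} {r : ℕ} (S : Finset V) (c : V → Fin r) (i : Fin r) : Finset V :=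
  S.filter (fun v => c v = i)

/-- Outside the classes in `P`, the vertices of `A` are distributed in this way: classes of `H` of
equal size contain equal numbers of vertices of `A` up to one, and a larger class contains more than
one vertex of `A` only if all smaller classes are contained in `A`. -/
def SmallFirst {V : Type} {r : ℕ} (H A : Finset V) (c : V → Fin r) (P : Finset (Fin r)) : Prop :=
  ∀ i k, i ∉ P → k ∉ P →
    ((part H c i).card = (part H c k).card → (part A c i).card ≤ (part A c k).card + 1) ∧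
    ((part H c i).card < (part H c k).card →
      (part A c i).card = (part H c i).card ∨ (part A c k).card = 1)

/-- Form D over the class sizes `y`: the complete multipartite graph on `H` (classes given by `c`,
of sizes `y`) without an edge `v₁ v₂` between two largest classes, and a vertex `w` joined exactly
to a subset `A` of `H` meeting all classes, `v₁` and `v₂` being the only vertices of `A` in their
classes, and the rest of `A` placed in the smaller classes first; the other vertices are isolated.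
(The number of vertices of `A` is given by the number of edges.) -/
def FormD {V : Type} {r : ℕ} (y : Fin r → ℕ) (G : SimpleGraph V) : Prop :=
  ∃ (H : Finset V) (c : V → Fin r) (w : V) (A : Finset V) (v₁ v₂ : V),
    (∀ i, (part H c i).card = y i) ∧ w ∉ H ∧ A ⊆ H ∧ (∀ i, (part A c i).Nonempty) ∧
    c v₁ ≠ c v₂ ∧ part A c (c v₁) = {v₁} ∧ part A c (c v₂) = {v₂} ∧
    (∀ k, k ≠ c v₁ → k ≠ c v₂ → y k ≤ y (c v₁) ∧ y k ≤ y (c v₂)) ∧
    SmallFirst H A c {c v₁, c v₂} ∧
    ∀ a b, G.Adj a b ↔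
      (a ∈ H ∧ b ∈ H ∧ c a ≠ c b ∧ ¬ (a = v₁ ∧ b = v₂) ∧ ¬ (a = v₂ ∧ b = v₁)) ∨
        (a = w ∧ b ∈ A) ∨ (b = w ∧ a ∈ A)

/-- Form E over the class sizes `y`: the complete multipartite graph on `H` and two adjacent new
vertices `w`, `u`; `w` is joined to `A`, `u` to `B`; the other vertices are isolated. The class `i₀`
(a largest one) contains no vertex of `A` or `B`, each other class contains exactly one vertex of
`B` and at least one vertex of `A`, exactly one vertex of `B` is not in `A`, and `A` is placed in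
the smaller classes first. -/
def FormE {V : Type} {r : ℕ} (y : Fin r → ℕ) (G : SimpleGraph V) : Prop :=
  ∃ (H : Finset V) (c : V → Fin r) (w u : V) (A B : Finset V) (i₀ : Fin r),
    (∀ i, (part H c i).card = y i) ∧ w ∉ H ∧ u ∉ H ∧ w ≠ u ∧ A ⊆ H ∧ B ⊆ H ∧
    part A c i₀ = ∅ ∧ part B c i₀ = ∅ ∧ (∀ i, i ≠ i₀ → (part A c i).Nonempty) ∧
    (∀ i, i ≠ i₀ → (part B c i).card = 1) ∧
    (∃ b, b ∈ B ∧ b ∉ A ∧ ∀ a, a ∈ B → a ∉ A → a = b) ∧
    (∀ k, k ≠ i₀ → y k ≤ y i₀) ∧ SmallFirst H A c {i₀} ∧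
    ∀ a b, G.Adj a b ↔
      (a ∈ H ∧ b ∈ H ∧ c a ≠ c b) ∨ (a = w ∧ b ∈ A) ∨ (b = w ∧ a ∈ A) ∨
        (a = u ∧ b ∈ B) ∨ (b = u ∧ a ∈ B) ∨ (a = w ∧ b = u) ∨ (a = u ∧ b = w)

/-- Form S over the class sizes `y`: the complete multipartite graph on `H` without the edges
between a vertex `p` and the vertices of a set `L` of at least two vertices of the class of
`q ∈ L`, and a vertex `w` joined exactly to a set `T` consisting of one vertex of each class,
among them `p` and `q`; the other vertices are isolated. The class of `p` is the largest one, the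
class of `q` the second largest one. -/
def FormS {V : Type} {r : ℕ} (y : Fin r → ℕ) (G : SimpleGraph V) : Prop :=
  ∃ (H : Finset V) (c : V → Fin r) (w : V) (T L : Finset V) (p q : V),
    (∀ i, (part H c i).card = y i) ∧ w ∉ H ∧ T ⊆ H ∧ (∀ i, (part T c i).card = 1) ∧
    p ∈ T ∧ q ∈ T ∧ c p ≠ c q ∧ L ⊆ part H c (c q) ∧ q ∈ L ∧ 2 ≤ L.card ∧
    y (c q) < y (c p) ∧ (∀ k, k ≠ c p → k ≠ c q → y k < y (c q)) ∧
    ∀ a b, G.Adj a b ↔
      (a ∈ H ∧ b ∈ H ∧ c a ≠ c b ∧ ¬ (a = p ∧ b ∈ L) ∧ ¬ (b = p ∧ a ∈ L)) ∨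
        (a = w ∧ b ∈ T) ∨ (b = w ∧ a ∈ T)

open Pool.Agent.Work.MP_5532fa_up

theorem sum_of {V : Type} [Fintype V] {r n : ℕ} {H : Finset V} {c : V → Fin r} {y : Fin r → ℕ}
    (h : H.card = n) (hy : ∀ i, (part H c i).card = y i) : ∑ i, y i = n := by
  rw [← h, ← sum_card_cl H c]
  exact Finset.sum_congr rfl fun i _ => (hy i).symm

theorem formD_iff {V : Type} [Fintype V] {r n : ℕ} {y : Fin r → ℕ} {G : SimpleGraph V}
    (hn : ∑ i, y i = n) : FormD y G ↔ FamD n y G := by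
  constructor
  · rintro ⟨H, c, w, A, v₁, v₂, h1, h2, h3, h4, h5, h6, h7, h8, h9, h10⟩
    have hc : H.card = n := by
      rw [← hn, ← sum_card_cl H c]
      exact Finset.sum_congr rfl fun i _ => h1 i
    refine ⟨H, c, w, A, v₁, v₂, ⟨hc, h2, h3, h5, h6, h7, h4, h10⟩, h1, h9, ?_⟩
    intro i k hi hk
    have e1 : (cl H c i).card = y i := h1 i
    have e2 : (cl H c k).card = y k := h1 k
    rw [e1, e2]
    simp only [Finset.mem_insert, Finset.mem_singleton, not_or] at hi hk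
    rcases hi with rfl | rfl
    · exact (h8 k hk.1 hk.2).1
    · exact (h8 k hk.1 hk.2).2
  · rintro ⟨H, c, w, A, v₁, v₂, ⟨hc, h2, h3, h5, h6, h7, h4, h10⟩, h1, h9, h8⟩
    refine ⟨H, c, w, A, v₁, v₂, h1, h2, h3, h4, h5, h6, h7, ?_, h9, h10⟩
    intro k hk1 hk2
    have hk : k ∉ ({c v₁, c v₂} : Finset (Fin r)) := by
      simp only [Finset.mem_insert, Finset.mem_singleton, not_or]
      exact ⟨hk1, hk2⟩
    rw [← h1 k, ← h1 (c v₁), ← h1 (c v₂)]
    exact ⟨h8 _ k (by simp) hk, h8 _ k (by simp) hk⟩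

theorem formE_iff {V : Type} [Fintype V] {r n : ℕ} {y : Fin r → ℕ} {G : SimpleGraph V}
    (hn : ∑ i, y i = n) : FormE y G ↔ FamE n y G := by
  constructor
  · rintro ⟨H, c, w, u, A, B, i₀, h1, h2, h3, h4, h5, h6, h7, h8, h9, h10, h11, h12, h13, h14⟩
    have hc : H.card = n := by
      rw [← hn, ← sum_card_cl H c]
      exact Finset.sum_congr rfl fun i _ => h1 i
    refine ⟨H, c, w, u, A, B, i₀, ⟨hc, h2, h3, h4, h5, h6, h7, h8, h9, h10, ?_, h14⟩, h1, h11,
      h13, ?_⟩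
    · obtain ⟨b, hb, hb', _⟩ := h11
      exact fun h => hb' (h hb)
    · intro i k hi hk
      rw [Finset.mem_singleton] at hi hk
      have e1 : (cl H c i).card = y i := h1 i
      have e2 : (cl H c k).card = y k := h1 k
      rw [e1, e2, hi]
      exact h12 k hk
  · rintro ⟨H, c, w, u, A, B, i₀, ⟨hc, h2, h3, h4, h5, h6, h7, h8, h9, h10, _, h14⟩, h1, h11,
      h13, h12⟩
    refine ⟨H, c, w, u, A, B, i₀, h1, h2, h3, h4, h5, h6, h7, h8, h9, h10, h11, ?_, h13, h14⟩
    intro k hk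
    rw [← h1 k, ← h1 i₀]
    exact h12 i₀ k (Finset.mem_singleton.mpr rfl) (fun h => hk (Finset.mem_singleton.mp h))

theorem formS_iff {V : Type} [Fintype V] {r n : ℕ} {y : Fin r → ℕ} {G : SimpleGraph V}
    (hn : ∑ i, y i = n) : FormS y G ↔ FamS n y G := by
  constructor
  · rintro ⟨H, c, w, T, L, p, q, h1, h2, h3, h4, h5, h6, h7, h8, h9, h10, h11, h12, h13⟩
    have hc : H.card = n := by
      rw [← hn, ← sum_card_cl H c]
      exact Finset.sum_congr rfl fun i _ => h1 i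
    refine ⟨H, c, w, T, L, p, q, ⟨hc, h2, h3, h4, h5, h6, h7, h8, h9, h13⟩, h1, h10, ?_, ?_⟩
    · have e1 : (cl H c (c q)).card = y (c q) := h1 _
      have e2 : (cl H c (c p)).card = y (c p) := h1 _
      rw [e1, e2]
      exact h11
    · intro i hi1 hi2
      have e1 : (cl H c (c q)).card = y (c q) := h1 _
      have e2 : (cl H c i).card = y i := h1 _
      rw [e1, e2]
      exact h12 i hi1 hi2
  · rintro ⟨H, c, w, T, L, p, q, ⟨hc, h2, h3, h4, h5, h6, h7, h8, h9, h13⟩, h1, h10, h11, h12⟩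
    refine ⟨H, c, w, T, L, p, q, h1, h2, h3, h4, h5, h6, h7, h8, h9, h10, ?_, ?_, h13⟩
    · rw [← h1 (c q), ← h1 (c p)]
      exact h11
    · intro k hk1 hk2
      rw [← h1 k, ← h1 (c q)]
      exact h12 k hk1 hk2

theorem edges_iff {V : Type} [Fintype V] (G : SimpleGraph V) (m : ℕ) :
    MP5532fa.pE G = 2 * (m : ℝ) ↔ G.edgeSet.ncard = m := by
  rw [MP5532fa.pE_eq]
  constructor
  · intro e
    have : (G.edgeSet.ncard : ℝ) = m := by linarith
    exact_mod_cast this
  · intro e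
    rw [e]

theorem ext_iff {V : Type} [Fintype V] {r m : ℕ} {G : SimpleGraph V} :
    IsExtremal r m G ↔ Ext r m G := by
  constructor
  · rintro ⟨⟨h1, h2, h3⟩, h4⟩
    exact ⟨h1, h2, (edges_iff G m).mpr h3,
      fun V' _ G' a b e => h4 V' G' ⟨a, b, (edges_iff G' m).mp e⟩⟩
  · rintro ⟨h1, h2, h3, h4⟩
    refine ⟨⟨h1, h2, (edges_iff G m).mp h3⟩, ?_⟩
    rintro V' _ G' ⟨a, b, e⟩
    exact h4 V' G' a b ((edges_iff G' m).mpr e)

/-- For all large `s`, `r = 3`, and `m = 300 s⁴ - 12 s² + 2`, `m = 300 s⁴ - 12 s² - 6 s`,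
`m = 300 s⁴ - 12 s² - 6 s - 16`: a graph of largest spectral radius exists, and each of them has
the form D over `(10s² + 4s, 10s² - 2s, 10s² - 2s)`,
the form S over `(10s² + 4s + 1, 10s² - 2s, 10s² - 2s - 1)`,
the form E over `(10s² + 4s + 1, 10s² - 2s + 4, 10s² - 2s - 5)`, respectively. -/
theorem result : ∃ s₀ : ℕ, ∀ s ≥ s₀, ∀ m : ℕ,
    (m + 12 * s ^ 2 = 300 * s ^ 4 + 2 ∨ m + 12 * s ^ 2 + 6 * s = 300 * s ^ 4 ∨
      m + 12 * s ^ 2 + 6 * s + 16 = 300 * s ^ 4) →
    (∃ G : SimpleGraph (Fin (2 * m)), IsExtremal 3 m G) ∧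
    ∀ (V : Type) [Fintype V] (G : SimpleGraph V), IsExtremal 3 m G →
      (m + 12 * s ^ 2 = 300 * s ^ 4 + 2 →
        FormD ![10 * s ^ 2 + 4 * s, 10 * s ^ 2 - 2 * s, 10 * s ^ 2 - 2 * s] G) ∧
      (m + 12 * s ^ 2 + 6 * s = 300 * s ^ 4 →
        FormS ![10 * s ^ 2 + 4 * s + 1, 10 * s ^ 2 - 2 * s, 10 * s ^ 2 - 2 * s - 1] G) ∧
      (m + 12 * s ^ 2 + 6 * s + 16 = 300 * s ^ 4 →
        FormE ![10 * s ^ 2 + 4 * s + 1, 10 * s ^ 2 - 2 * s + 4, 10 * s ^ 2 - 2 * s - 5] G) := by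
  obtain ⟨s0, H⟩ := q_TYP3
  obtain ⟨m1, H1⟩ := pEXT 3 (by norm_num)
  refine ⟨s0 + m1 + 10, fun s hs m hm => ⟨?_, fun V _ G hG => ?_⟩⟩
  · have hs1 : s ≤ s ^ 2 := by nlinarith
    have hs2 : s ^ 2 ≤ s ^ 4 := by
      have h1 : 1 ≤ s ^ 2 := by nlinarith
      calc s ^ 2 = s ^ 2 * 1 := (mul_one _).symm
        _ ≤ s ^ 2 * s ^ 2 := Nat.mul_le_mul_left _ h1
        _ = s ^ 4 := by ring
    have hms : m1 ≤ m := by
      rcases hm with h | h | h <;> omega
    obtain ⟨G, h1, h2, h3, h4⟩ := H1 m hms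
    exact ⟨G, ext_iff.mpr ⟨h1, h2, h3, h4⟩⟩
  · obtain ⟨h1, h2, h3⟩ := H s (by omega) m V G (ext_iff.mp hG)
    have hs1 : 2 * s + 5 ≤ 10 * s ^ 2 := by nlinarith
    obtain ⟨q, hq⟩ : ∃ q, q = s ^ 2 := ⟨_, rfl⟩
    rw [← hq] at hs1 h1 h2 h3 ⊢
    refine ⟨fun h => ?_, fun h => ?_, fun h => ?_⟩
    · refine (formD_iff ?_).mpr (h1 h)
      simp [Fin.sum_univ_three]
      omega
    · refine (formS_iff ?_).mpr (h2 h)
      simp [Fin.sum_univ_three]
      omega
    · refine (formE_iff ?_).mpr (h3 h)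
      simp [Fin.sum_univ_three]
      omega

end Pool.Agent.Results.MP_5532fa_co.ThreeSequences
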